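import Mathlib

/-!
# H69Sun/Defs: the sum `S(n)` of MP_0ba4ac_nt and its congruence
-/

namespace Pool.Agent.H69Sun

open Finset

/-- the generalised binomial coefficient `C(x, k) = x (x-1) ⋯ (x-k+1) / k!` -/
noncomputable def binom (x : ℚ) (k : ℕ) : ℚ := (∏ i ∈ range k, (x - (i : ℚ))) / (k.factorial : ℚ)

/-- `S(n) = ∑_{k<n} C(-1/(n+1), k)^(n+1)` -/
noncomputable def S (n : ℕ) : ℚ := ∑ k ∈ range n, binom (-1 / ((n : ℚ) + 1)) k ^ (n + 1)

/-- the congruence `S(n) ≡ 0 (mod n^r)`: in lowest terms the denominator of `S(n)` is coprime to `n` and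
`n^r` divides the numerator -/
def Cong (r n : ℕ) : Prop := Nat.Coprime (S n).den n ∧ ((n : ℤ) ^ r) ∣ (S n).num

end Pool.Agent.H69Sun
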