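import Pool.Agent.H69Sun.Cong
import Pool.Agent.H69Sun.Defs

/-!
# H69Sun/Bridge: from the rational sum `S(pm)` to ordinary binomial coefficients
-/

namespace Pool.Agent.H69Sun

open Finset

/-- `X` close to `-1/(pm+1)` -/
theorem exists_X (p m : ℕ) [hp : Fact p.Prime] (hm1 : 1 ≤ m) (hm : m < p) (A : ℕ) (hA : 2 ≤ A) :
    ∃ X : ℕ, X % p = p - 1 ∧ (X / p) % p = m - 1 ∧ (p : ℤ) ^ A ∣ ((p * m + 1 : ℕ) : ℤ) * X + 1 := by
  have hpos := hp.out.pos
  have hcop : Nat.Coprime (p * m + 1) (p ^ A) := by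
    apply Nat.Coprime.pow_right
    rw [Nat.coprime_comm, Nat.coprime_mul_left_add_right]
    exact Nat.coprime_one_right p
  have : NeZero (p ^ A) := ⟨by positivity⟩
  set X : ℕ := (-(((p * m + 1 : ℕ) : ZMod (p ^ A))⁻¹)).val with hX
  have hcast : ((X : ℕ) : ZMod (p ^ A)) = -(((p * m + 1 : ℕ) : ZMod (p ^ A))⁻¹) := by
    rw [hX, ZMod.natCast_zmod_val]
  have hdvd : (p : ℤ) ^ A ∣ ((p * m + 1 : ℕ) : ℤ) * X + 1 := by
    have h1 : (((((p * m + 1 : ℕ) : ℤ) * X + 1 : ℤ)) : ZMod (p ^ A)) = 0 := by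
      have h2 := ZMod.coe_mul_inv_eq_one (p * m + 1) hcop
      rw [Int.cast_add, Int.cast_mul, Int.cast_natCast, Int.cast_natCast, hcast, Int.cast_one, mul_neg, h2]
      ring
    have h3 := (ZMod.intCast_zmod_eq_zero_iff_dvd _ _).1 h1
    push_cast at h3
    push_cast
    exact h3
  refine ⟨X, ?_, ?_, hdvd⟩
  all_goals
    have hd2 : (p : ℤ) ^ 2 ∣ ((p * m + 1 : ℕ) : ℤ) * X + 1 := (pow_dvd_pow _ hA).trans hdvd
    have hd1 : (p : ℤ) ∣ (X : ℤ) + 1 := by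
      have h1 : (p : ℤ) ∣ ((p * m + 1 : ℕ) : ℤ) * X + 1 := (dvd_pow_self _ two_ne_zero).trans hd2
      have h2 : ((p * m + 1 : ℕ) : ℤ) * X + 1 = p * (m * X) + (X + 1) := by push_cast; ring
      rw [h2] at h1
      exact (dvd_add_right (dvd_mul_right _ _)).1 h1
    have hd1' : p ∣ X + 1 := by exact_mod_cast hd1
    obtain ⟨t, ht⟩ := hd1'
    have ht1 : 1 ≤ t := by
      rcases Nat.eq_zero_or_pos t with h | h
      · rw [h] at ht; omega
      · exact h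
    have hXt : X = p * (t - 1) + (p - 1) := by
      obtain ⟨s, rfl⟩ : ∃ s, t = s + 1 := ⟨t - 1, by omega⟩
      have : p * (s + 1) = p * s + p := by ring
      simp only [Nat.add_sub_cancel]
      omega
  · rw [hXt, Nat.mul_add_mod, Nat.mod_eq_of_lt (by omega)]
  · have hdiv : X / p = t - 1 := by
      rw [hXt, Nat.mul_add_div hpos, Nat.div_eq_of_lt (by omega), add_zero]
    rw [hdiv]
    have h3 : (p : ℤ) ∣ (t : ℤ) - m := by
      have h4 : ((p * m + 1 : ℕ) : ℤ) * X + 1 = (p : ℤ) * ((p : ℤ) * (m * t) + (t - m)) := by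
        have h5 : (X : ℤ) = p * t - 1 := by
          have : ((X : ℤ)) + 1 = p * t := by exact_mod_cast ht
          linarith
        rw [h5]
        push_cast
        ring
      rw [h4, pow_two] at hd2
      have h6 := (mul_dvd_mul_iff_left (by exact_mod_cast hp.out.ne_zero)).1 hd2
      exact (dvd_add_right (dvd_mul_right _ _)).1 h6
    have h7 : (t - 1 : ℕ) ≡ (m - 1 : ℕ) [MOD p] := by
      rw [Nat.modEq_iff_dvd]
      have : (((m - 1 : ℕ) : ℤ)) - ((t - 1 : ℕ) : ℤ) = -((t : ℤ) - m) := by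
        push_cast [Nat.cast_sub hm1, Nat.cast_sub ht1]
        ring
      rw [this]
      exact (dvd_neg).2 h3
    have h8 : (t - 1) % p = (m - 1) % p := h7
    rw [h8, Nat.mod_eq_of_lt (by omega)]

theorem choose_prod (X k : ℕ) : (X.choose k : ℚ) * (k.factorial : ℚ) = ∏ i ∈ range k, ((X : ℚ) - (i : ℚ)) := by
  induction k with
  | zero => simp
  | succ k ih =>
    rw [prod_range_succ, ← ih, Nat.factorial_succ]
    have h : ((X.choose (k + 1) : ℕ) : ℚ) * ((k : ℚ) + 1) = (X.choose k : ℚ) * ((X : ℚ) - k) := by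
      rcases Nat.lt_or_ge X k with hlt | hge
      · rw [Nat.choose_eq_zero_of_lt hlt, Nat.choose_eq_zero_of_lt (by omega)]
        simp
      · have := Nat.choose_succ_right_eq X k
        have h2 : ((X.choose (k + 1) * (k + 1) : ℕ) : ℚ) = ((X.choose k * (X - k) : ℕ) : ℚ) := by rw [this]
        push_cast [Nat.cast_sub hge] at h2
        exact h2
    push_cast
    linear_combination (k.factorial : ℚ) * h

theorem norm_pow_sub {p : ℕ} [hp : Fact p.Prime] {y c : ℚ_[p]} (hy : ‖y‖ ≤ 1) (hc : ‖c‖ ≤ 1) (N : ℕ) :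
    ‖y ^ N - c ^ N‖ ≤ ‖y - c‖ := by
  induction N with
  | zero => simp
  | succ N ih =>
    have h : y ^ (N + 1) - c ^ (N + 1) = y ^ N * (y - c) + c * (y ^ N - c ^ N) := by ring
    rw [h]
    refine (IsUltrametricDist.norm_add_le_max _ _).trans (max_le ?_ ?_)
    · rw [norm_mul, norm_pow]
      calc ‖y‖ ^ N * ‖y - c‖ ≤ 1 * ‖y - c‖ :=
            mul_le_mul_of_nonneg_right (pow_le_one₀ (norm_nonneg _) hy) (norm_nonneg _)
        _ = _ := one_mul _
    · rw [norm_mul]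
      calc ‖c‖ * ‖y ^ N - c ^ N‖ ≤ 1 * ‖y - c‖ :=
            mul_le_mul hc ih (norm_nonneg _) zero_le_one
        _ = _ := one_mul _

/-- the bridge -/
theorem bridge (p m : ℕ) [hp : Fact p.Prime] (hm1 : 1 ≤ m) (hm : m < p) :
    ∃ X : ℕ, X % p = p - 1 ∧ (X / p) % p = m - 1 ∧
      ∀ e ≤ 2, Cong e (p * m) → (p : ℤ) ^ e ∣ ∑ k ∈ range (p * m), (X.choose k : ℤ) ^ (p * m + 1) := by
  classical
  set n : ℕ := p * m with hn
  have hp1 : (1 : ℝ) < p := by exact_mod_cast hp.out.one_lt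
  have hp0 : (0 : ℝ) < p := by linarith
  -- the precision
  have hf0 : (0 : ℝ) < ‖((n.factorial : ℕ) : ℚ_[p])‖ := by
    rw [norm_pos_iff]
    exact_mod_cast Nat.factorial_ne_zero n
  obtain ⟨A0, hA0⟩ : ∃ A0 : ℕ, ((p : ℝ)⁻¹) ^ A0 < (p : ℝ) ^ (-2 : ℤ) * ‖((n.factorial : ℕ) : ℚ_[p])‖ :=
    exists_pow_lt_of_lt_one (by positivity) (inv_lt_one_of_one_lt₀ hp1)
  set A : ℕ := A0 + 2 with hA
  obtain ⟨X, hX0, hX1, hXA⟩ := exists_X p m hm1 hm A (by omega)
  refine ⟨X, hX0, hX1, fun e he hC => ?_⟩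
  have hpA : (p : ℝ) ^ (-(A : ℤ)) ≤ (p : ℝ) ^ (-2 : ℤ) * ‖((n.factorial : ℕ) : ℚ_[p])‖ := by
    have h1 : (p : ℝ) ^ (-(A : ℤ)) = ((p : ℝ)⁻¹) ^ A := by
      rw [zpow_neg, zpow_natCast, inv_pow]
    rw [h1]
    refine le_trans ?_ hA0.le
    exact pow_le_pow_of_le_one (by positivity) (inv_le_one_of_one_le₀ hp1.le) (by omega)
  set x : ℚ := -1 / ((n : ℚ) + 1) with hx
  have hN0 : ((n : ℚ) + 1) ≠ 0 := by positivity
  have hNnorm : ‖((n : ℚ_[p]) + 1)‖ = 1 := by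
    have h1 : ((n : ℚ_[p]) + 1) = ((n + 1 : ℕ) : ℚ_[p]) := by push_cast; ring
    rw [h1, Padic.norm_natCast_eq_one_iff, hn, Nat.coprime_mul_left_add_right]
    exact Nat.coprime_one_right p
  -- the single terms
  have hterm : ∀ k < n, ‖((binom x k : ℚ) : ℚ_[p]) - ((X.choose k : ℕ) : ℚ_[p])‖ ≤ (p : ℝ) ^ (-2 : ℤ) := by
    intro k hk
    set D : ℤ := ∏ i ∈ range k, (-1 - (i : ℤ) * ((n + 1 : ℕ) : ℤ)) -
      ∏ i ∈ range k, (((n + 1 : ℕ) : ℤ) * X - (i : ℤ) * ((n + 1 : ℕ) : ℤ)) with hD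
    have hDdvd : (p : ℤ) ^ A ∣ D := by
      have h1 : ((D : ℤ) : ZMod (p ^ A)) = 0 := by
        rw [hD, Int.cast_sub, Int.cast_prod, Int.cast_prod, sub_eq_zero]
        refine prod_congr rfl fun i _ => ?_
        have h2 : ((((n + 1 : ℕ) : ℤ) * X + 1 : ℤ) : ZMod (p ^ A)) = 0 := by
          rw [ZMod.intCast_zmod_eq_zero_iff_dvd]
          push_cast
          push_cast at hXA
          exact hXA
        have h3 : ((((n + 1 : ℕ) : ℤ) * X : ℤ) : ZMod (p ^ A)) = -1 := by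
          rw [Int.cast_add, Int.cast_one] at h2
          exact eq_neg_of_add_eq_zero_left h2
        rw [Int.cast_sub, Int.cast_sub, h3]
        simp
      have h4 := (ZMod.intCast_zmod_eq_zero_iff_dvd _ _).1 h1
      push_cast at h4
      exact h4
    have hid : (binom x k - (X.choose k : ℚ)) * (((n : ℚ) + 1) ^ k * (k.factorial : ℚ)) = (D : ℚ) := by
      have hk0 : (k.factorial : ℚ) ≠ 0 := by exact_mod_cast Nat.factorial_ne_zero k
      have hpw : ((n : ℚ) + 1) ^ k = ∏ _i ∈ range k, ((n : ℚ) + 1) := by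
        rw [prod_const, card_range]
      have h1 : binom x k * (((n : ℚ) + 1) ^ k * (k.factorial : ℚ)) =
          ∏ i ∈ range k, (-1 - (i : ℚ) * ((n : ℚ) + 1)) := by
        have h2 : (∏ i ∈ range k, (x - (i : ℚ))) * ((n : ℚ) + 1) ^ k =
            ∏ i ∈ range k, (-1 - (i : ℚ) * ((n : ℚ) + 1)) := by
          rw [hpw, ← prod_mul_distrib]
          refine prod_congr rfl fun i _ => ?_
          rw [sub_mul, hx, div_mul_cancel₀ _ hN0]
        rw [← h2, binom]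
        field_simp
      have h3 : (X.choose k : ℚ) * (((n : ℚ) + 1) ^ k * (k.factorial : ℚ)) =
          ∏ i ∈ range k, (((n : ℚ) + 1) * X - (i : ℚ) * ((n : ℚ) + 1)) := by
        have h4 := choose_prod X k
        calc (X.choose k : ℚ) * (((n : ℚ) + 1) ^ k * (k.factorial : ℚ)) =
              ((n : ℚ) + 1) ^ k * ((X.choose k : ℚ) * (k.factorial : ℚ)) := by ring
          _ = _ := by
              rw [h4, hpw, ← prod_mul_distrib]
              refine prod_congr rfl fun i _ => ?_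
              ring
      rw [sub_mul, h1, h3, hD]
      push_cast
      rfl
    have hid' : (((binom x k : ℚ) : ℚ_[p]) - ((X.choose k : ℕ) : ℚ_[p])) *
        (((n : ℚ_[p]) + 1) ^ k * ((k.factorial : ℕ) : ℚ_[p])) = ((D : ℤ) : ℚ_[p]) := by
      have := congrArg (fun q : ℚ => (q : ℚ_[p])) hid
      push_cast at this
      exact this
    have hnorm := congrArg norm hid'
    rw [norm_mul, norm_mul, norm_pow, hNnorm, one_pow, one_mul] at hnorm
    have hDn : ‖((D : ℤ) : ℚ_[p])‖ ≤ (p : ℝ) ^ (-(A : ℤ)) := (Padic.norm_int_le_pow_iff_dvd _ _).2 hDdvd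
    have hkn : ‖((n.factorial : ℕ) : ℚ_[p])‖ ≤ ‖((k.factorial : ℕ) : ℚ_[p])‖ := by
      obtain ⟨c, hc⟩ := Nat.factorial_dvd_factorial hk.le
      rw [hc, Nat.cast_mul, norm_mul]
      have hc1 : ‖((c : ℕ) : ℚ_[p])‖ ≤ 1 := by
        have := Padic.norm_int_le_one (p := p) (c : ℤ)
        rwa [Int.cast_natCast] at this
      calc _ ≤ ‖((k.factorial : ℕ) : ℚ_[p])‖ * 1 := mul_le_mul_of_nonneg_left hc1 (norm_nonneg _)
        _ = _ := mul_one _
    have h5 : ‖((binom x k : ℚ) : ℚ_[p]) - ((X.choose k : ℕ) : ℚ_[p])‖ * ‖((n.factorial : ℕ) : ℚ_[p])‖ ≤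
        (p : ℝ) ^ (-2 : ℤ) * ‖((n.factorial : ℕ) : ℚ_[p])‖ := by
      calc _ ≤ ‖((binom x k : ℚ) : ℚ_[p]) - ((X.choose k : ℕ) : ℚ_[p])‖ * ‖((k.factorial : ℕ) : ℚ_[p])‖ :=
            mul_le_mul_of_nonneg_left hkn (norm_nonneg _)
        _ = ‖((D : ℤ) : ℚ_[p])‖ := hnorm
        _ ≤ _ := hDn.trans hpA
    exact le_of_mul_le_mul_right h5 hf0
  have hp2 : (p : ℝ) ^ (-2 : ℤ) ≤ (p : ℝ) ^ (-(e : ℤ)) := by
    apply zpow_le_zpow_right₀ hp1.le
    omega
  have hp2' : (p : ℝ) ^ (-2 : ℤ) ≤ 1 := by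
    apply zpow_le_one_of_nonpos₀ hp1.le
    norm_num
  have hCn : ∀ k : ℕ, ‖((X.choose k : ℕ) : ℚ_[p])‖ ≤ 1 := by
    intro k
    have := Padic.norm_int_le_one (p := p) (X.choose k : ℤ)
    rwa [Int.cast_natCast] at this
  have hdiff : ‖((S n : ℚ) : ℚ_[p]) - ∑ k ∈ range n, ((X.choose k : ℕ) : ℚ_[p]) ^ (n + 1)‖ ≤
      (p : ℝ) ^ (-2 : ℤ) := by
    have hS : ((S n : ℚ) : ℚ_[p]) = ∑ k ∈ range n, ((binom x k : ℚ) : ℚ_[p]) ^ (n + 1) := by
      rw [S]
      push_cast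
      rfl
    rw [hS, ← sum_sub_distrib]
    refine IsUltrametricDist.norm_sum_le_of_forall_le_of_nonneg (by positivity) fun k hk => ?_
    rw [mem_range] at hk
    have h6 := hterm k hk
    refine (norm_pow_sub ?_ (hCn k) _).trans h6
    have h7 : ((binom x k : ℚ) : ℚ_[p]) = (((binom x k : ℚ) : ℚ_[p]) - ((X.choose k : ℕ) : ℚ_[p])) +
        ((X.choose k : ℕ) : ℚ_[p]) := by ring
    rw [h7]
    exact (IsUltrametricDist.norm_add_le_max _ _).trans (max_le (h6.trans hp2') (hCn k))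
  have hSn : ‖((S n : ℚ) : ℚ_[p])‖ ≤ (p : ℝ) ^ (-(e : ℤ)) := by
    obtain ⟨hc, hd⟩ := hC
    have h1 : ((S n : ℚ) : ℚ_[p]) = (((S n).num : ℤ) : ℚ_[p]) / (((S n).den : ℕ) : ℚ_[p]) := by
      conv_lhs => rw [← Rat.num_div_den (S n)]
      push_cast
      rfl
    have h2 : ‖(((S n).den : ℕ) : ℚ_[p])‖ = 1 := by
      rw [Padic.norm_natCast_eq_one_iff]
      exact (Nat.Coprime.coprime_mul_right_right hc).symm
    rw [h1, norm_div, h2, div_one, Padic.norm_int_le_pow_iff_dvd]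
    refine dvd_trans ?_ hd
    apply pow_dvd_pow_of_dvd
    exact ⟨(m : ℤ), by rw [hn]; push_cast; ring⟩
  rw [← Padic.norm_int_le_pow_iff_dvd]
  push_cast
  have h8 : ∑ k ∈ range n, ((X.choose k : ℕ) : ℚ_[p]) ^ (n + 1) =
      ((S n : ℚ) : ℚ_[p]) - (((S n : ℚ) : ℚ_[p]) - ∑ k ∈ range n, ((X.choose k : ℕ) : ℚ_[p]) ^ (n + 1)) := by
    ring
  rw [h8, sub_eq_add_neg]
  refine (IsUltrametricDist.norm_add_le_max _ _).trans (max_le hSn ?_)
  rw [norm_neg]
  exact hdiff.trans hp2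

/-- **Criterion**: if `n = p m`, `p` prime, `2 ≤ m < p` and `n^2 ∣ S(n)`, then `p ∣ T(m)`. -/
theorem dvd_T {p m : ℕ} (hp : p.Prime) (hm2 : 2 ≤ m) (hm : m < p) (hC : Cong 2 (p * m)) : p ∣ T m := by
  have : Fact p.Prime := ⟨hp⟩
  have hodd : Odd p := hp.odd_of_ne_two (by omega)
  obtain ⟨X, h0, h1, hX⟩ := bridge p m (by omega) hm
  have hX2 := hX 2 le_rfl hC
  rcases Nat.even_or_odd m with hev | hod
  · have h2 : (p : ℤ) ∣ ∑ k ∈ range (p * m), (X.choose k : ℤ) ^ (p * m + 1) :=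
      (dvd_pow_self _ two_ne_zero).trans hX2
    have h3 : p ∣ ∑ k ∈ range (p * m), X.choose k ^ (p * m + 1) := by
      have : ((∑ k ∈ range (p * m), X.choose k ^ (p * m + 1) : ℕ) : ℤ) =
          ∑ k ∈ range (p * m), (X.choose k : ℤ) ^ (p * m + 1) := by push_cast; rfl
      rw [← this] at h2
      exact_mod_cast h2
    rw [← ZMod.natCast_eq_zero_iff] at h3 ⊢
    rw [← even_case p hodd h0 h1 hm hev]
    exact h3
  · have h2 := odd_case p hodd h0 h1 (by omega) hm hod hX2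
    have hpZ : Prime (p : ℤ) := Nat.prime_iff_prime_int.1 hp
    rcases hpZ.dvd_or_dvd h2 with h3 | h3
    · exfalso
      have h4 : (p : ℤ) ≤ (m : ℤ) - 1 := Int.le_of_dvd (by omega) h3
      omega
    · exact_mod_cast h3

end Pool.Agent.H69Sun
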