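import Mathlib

/-!
# H69Sun/Cong: `S(pm)` modulo `p` and `p^2`

For a prime `p` and `n = p m`, `1 < m < p`, let `X` be a natural number close to `-1/(n+1)` in `ℤ_p`. Then
`∑_{k<n} C(X,k)^(n+1)` is `T(m)` mod `p` if `n` is even and `-p (m-1) T(m)` mod `p^2` if `n` is odd, where
`T(m) = ∑_{i<m} C(m-1,i)^(m+1)`.
-/

namespace Pool.Agent.H69Sun

open Finset

/-- `T(m) = ∑_{i<m} C(m-1,i)^(m+1)` -/
def T (m : ℕ) : ℕ := ∑ i ∈ range m, (m - 1).choose i ^ (m + 1)

theorem choose_pred (p : ℕ) [hp : Fact p.Prime] : ∀ j : ℕ, j < p →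
    (((p - 1).choose j : ℕ) : ZMod p) = (-1) ^ j := by
  intro j
  induction j with
  | zero => intro _; simp
  | succ j ih =>
    intro hj
    have h1 := ih (by omega)
    have hpos := hp.out.pos
    have h2 : p.choose (j + 1) = (p - 1).choose j + (p - 1).choose (j + 1) := by
      conv_lhs => rw [show p = (p - 1) + 1 by omega]
      rw [Nat.choose_succ_succ]
    have h3 : ((p.choose (j + 1) : ℕ) : ZMod p) = 0 := by
      rw [ZMod.natCast_eq_zero_iff]
      exact hp.out.dvd_choose_self (by omega) hj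
    rw [h2, Nat.cast_add, h1] at h3
    rw [pow_succ]
    linear_combination h3

theorem lucas_digit (p : ℕ) [hp : Fact p.Prime] {X m : ℕ} (h0 : X % p = p - 1)
    (h1 : (X / p) % p = m - 1) {i j : ℕ} (hi : i < p) (hj : j < p) :
    (((X.choose (p * i + j)) : ℕ) : ZMod p) = (-1) ^ j * (((m - 1).choose i : ℕ) : ZMod p) := by
  have hk1 : (p * i + j) % p = j := by
    rw [Nat.mul_add_mod, Nat.mod_eq_of_lt hj]
  have hk2 : (p * i + j) / p = i := by
    rw [Nat.mul_add_div hp.out.pos, Nat.div_eq_of_lt hj, add_zero]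
  have hL : X.choose (p * i + j) ≡ (X % p).choose ((p * i + j) % p) * (X / p).choose ((p * i + j) / p)
      [MOD p] := Choose.choose_modEq_choose_mod_mul_choose_div_nat
  rw [hk1, hk2, h0] at hL
  have hL2 : (X / p).choose i ≡ ((X / p) % p).choose (i % p) * (X / p / p).choose (i / p) [MOD p] :=
    Choose.choose_modEq_choose_mod_mul_choose_div_nat
  rw [h1, Nat.mod_eq_of_lt hi, Nat.div_eq_of_lt hi, Nat.choose_zero_right, mul_one] at hL2
  have e1 := (ZMod.natCast_eq_natCast_iff _ _ _).2 hL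
  have e2 := (ZMod.natCast_eq_natCast_iff _ _ _).2 hL2
  rw [e1, Nat.cast_mul, e2, choose_pred p j hj]

theorem tele (X K : ℕ) : (X : ℤ) * ∑ k ∈ range K, (-1) ^ k * (X.choose k : ℤ) =
    -(-1) ^ K * K * (X.choose K : ℤ) := by
  induction K with
  | zero => simp
  | succ K ih =>
    rw [sum_range_succ, mul_add, ih]
    have h : ((X.choose (K + 1) : ℕ) : ℤ) * ((K : ℤ) + 1) = (X.choose K : ℤ) * ((X : ℤ) - K) := by
      rcases Nat.lt_or_ge X K with hlt | hge
      · rw [Nat.choose_eq_zero_of_lt hlt, Nat.choose_eq_zero_of_lt (by omega)]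
        simp
      · have := Nat.choose_succ_right_eq X K
        zify [hge] at this
        exact this
    push_cast
    rw [pow_succ]
    linear_combination (-(-1 : ℤ) ^ K) * h

theorem sum_blocks {M : Type*} [AddCommMonoid M] (p m : ℕ) (f : ℕ → M) :
    ∑ k ∈ range (p * m), f k = ∑ i ∈ range m, ∑ j ∈ range p, f (p * i + j) := by
  induction m with
  | zero => simp
  | succ m ih =>
    rw [Nat.mul_succ, sum_range_add, ih, sum_range_succ]

theorem sum_alt (p : ℕ) (hp : Odd p) {R : Type*} [Ring R] :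
    ∑ j ∈ range p, (-1 : R) ^ j = 1 := by
  obtain ⟨k, rfl⟩ := hp
  induction k with
  | zero => simp
  | succ k ih =>
    rw [show 2 * (k + 1) + 1 = (2 * k + 1) + 1 + 1 by ring, sum_range_succ, sum_range_succ, ih]
    rw [pow_succ (-1 : R) (2 * k + 1)]
    simp

/-- the even case -/
theorem even_case (p : ℕ) [hp : Fact p.Prime] (hodd : Odd p) {X m : ℕ} (h0 : X % p = p - 1)
    (h1 : (X / p) % p = m - 1) (hm : m < p) (hev : Even m) :
    (((∑ k ∈ range (p * m), X.choose k ^ (p * m + 1) : ℕ)) : ZMod p) = ((T m : ℕ) : ZMod p) := by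
  rw [sum_blocks, T]
  push_cast
  refine sum_congr rfl fun i hi => ?_
  rw [mem_range] at hi
  have hterm : ∀ j ∈ range p, ((X.choose (p * i + j) : ℕ) : ZMod p) ^ (p * m + 1) =
      (((m - 1).choose i : ℕ) : ZMod p) ^ (m + 1) * (-1) ^ j := by
    intro j hj
    rw [mem_range] at hj
    rw [lucas_digit p h0 h1 (by omega) hj, mul_pow]
    have e1 : ((-1 : ZMod p) ^ j) ^ (p * m + 1) = (-1) ^ j := by
      obtain ⟨c, hc⟩ := hev
      rw [← pow_mul, show j * (p * m + 1) = 2 * (j * p * c) + j by rw [hc]; ring, pow_add, pow_mul]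
      simp
    have e2 : (((m - 1).choose i : ℕ) : ZMod p) ^ (p * m + 1) =
        (((m - 1).choose i : ℕ) : ZMod p) ^ (m + 1) := by
      rw [pow_succ, pow_mul, ZMod.pow_card, ← pow_succ]
    rw [e1, e2, mul_comm]
  rw [sum_congr rfl hterm, ← mul_sum, sum_alt p hodd, mul_one]

/-- powers: `c ≡ a` mod `p` gives `c^(pm) ≡ a^(pm)` mod `p^2` -/
theorem pow_lift (p m : ℕ) {c a : ℤ} (h : (p : ℤ) ∣ c - a) :
    (p : ℤ) ^ 2 ∣ c ^ (p * m) - a ^ (p * m) := by
  have h1 : ((p : ℤ)) ^ (1 + 1) ∣ c ^ (p ^ 1) - a ^ (p ^ 1) := dvd_sub_pow_of_dvd_sub h 1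
  rw [pow_one] at h1
  rw [pow_mul, pow_mul]
  exact h1.trans (sub_dvd_pow_sub_pow _ _ _)

/-- the odd case -/
theorem odd_case (p : ℕ) [hp : Fact p.Prime] (hodd : Odd p) {X m : ℕ} (h0 : X % p = p - 1)
    (h1 : (X / p) % p = m - 1) (hm1 : 1 ≤ m) (hm : m < p) (hod : Odd m)
    (hS : (p : ℤ) ^ 2 ∣ ∑ k ∈ range (p * m), (X.choose k : ℤ) ^ (p * m + 1)) :
    (p : ℤ) ∣ ((m : ℤ) - 1) * (T m : ℤ) := by
  have hpos := hp.out.pos
  have hpZ : Prime (p : ℤ) := Nat.prime_iff_prime_int.1 hp.out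
  -- congruences of single binomials
  have hbin : ∀ i < p, ∀ j < p, (p : ℤ) ∣ (X.choose (p * i + j) : ℤ) - (-1) ^ j * ((m - 1).choose i : ℤ) := by
    intro i hi j hj
    rw [← ZMod.intCast_zmod_eq_zero_iff_dvd]
    have := lucas_digit p h0 h1 hi hj
    push_cast
    rw [this]
    ring
  have hXm : (p : ℤ) ∣ (X : ℤ) + 1 := by
    have h2 : X + 1 = p * (X / p + 1) := by
      have := Nat.div_add_mod X p
      rw [h0] at this
      have h3 : p * (X / p + 1) = p * (X / p) + p := by ring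
      omega
    exact ⟨(X / p + 1 : ℕ), by exact_mod_cast h2⟩
  -- the inner alternating sums
  set G : ℕ → ℤ := fun i => ∑ j ∈ range p, (-1) ^ j * (X.choose (p * i + j) : ℤ) with hG
  have hXG : ∀ i, (X : ℤ) * G i = (p : ℤ) * (((i : ℤ) + 1) * (X.choose (p * (i + 1)) : ℤ) +
      (i : ℤ) * (X.choose (p * i) : ℤ)) := by
    intro i
    have t1 := tele X (p * (i + 1))
    have t2 := tele X (p * i)
    have hs : ∑ k ∈ range (p * (i + 1)), (-1 : ℤ) ^ k * (X.choose k : ℤ) =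
        ∑ k ∈ range (p * i), (-1 : ℤ) ^ k * (X.choose k : ℤ) + (-1) ^ (p * i) * G i := by
      rw [Nat.mul_succ, sum_range_add, hG, mul_sum]
      congr 1
      refine sum_congr rfl fun j _ => ?_
      rw [pow_add]
      ring
    rw [hs, mul_add, t2] at t1
    have hsq : ((-1 : ℤ) ^ (p * i)) * ((-1 : ℤ) ^ (p * i)) = 1 := by
      rw [← mul_pow]; simp
    have hsg : (-1 : ℤ) ^ (p * (i + 1)) = -(-1) ^ (p * i) := by
      rw [Nat.mul_succ, pow_add, hodd.neg_one_pow]
      ring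
    rw [hsg] at t1
    push_cast at t1
    linear_combination ((-1 : ℤ) ^ (p * i)) * t1 - ((X : ℤ) * G i - (p : ℤ) * (((i : ℤ) + 1) *
      (X.choose (p * (i + 1)) : ℤ) + (i : ℤ) * (X.choose (p * i) : ℤ))) * hsq
  have hGm : ∀ i < m, (p : ℤ) ^ 2 ∣ G i + (p : ℤ) * ((m : ℤ) - 1) * ((m - 1).choose i : ℤ) := by
    intro i hi
    have e := hXG i
    have b1 := hbin (i + 1) (by omega) 0 hpos
    have b2 := hbin i (by omega) 0 hpos
    simp only [add_zero, pow_zero, one_mul] at b1 b2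
    have hch : ((m - 1).choose (i + 1) : ℤ) * ((i : ℤ) + 1) =
        ((m - 1).choose i : ℤ) * ((m : ℤ) - 1 - i) := by
      have h5 := Nat.choose_succ_right_eq (m - 1) i
      have h6 : i ≤ m - 1 := by omega
      zify [h6, hm1] at h5
      exact h5
    obtain ⟨u, hu⟩ := b1
    obtain ⟨w, hw⟩ := b2
    obtain ⟨t, ht⟩ := hXm
    -- p ∣ G i
    have hpG : (p : ℤ) ∣ G i := by
      have hd : (p : ℤ) ∣ (X : ℤ) * G i := ⟨_, e⟩
      rcases hpZ.dvd_or_dvd hd with hx | hx
      · exfalso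
        have : (p : ℤ) ∣ 1 := by
          have h7 := dvd_sub (show (p : ℤ) ∣ (X : ℤ) + 1 from ⟨t, ht⟩) hx
          simpa using h7
        exact hpZ.not_isUnit (isUnit_of_dvd_one this)
      · exact hx
    obtain ⟨g, hg⟩ := hpG
    refine ⟨t * g - (((i : ℤ) + 1) * u + (i : ℤ) * w), ?_⟩
    have hX' : (X : ℤ) = p * t - 1 := by linear_combination ht
    have hu' : (X.choose (p * (i + 1)) : ℤ) = ((m - 1).choose (i + 1) : ℤ) + p * u := by
      linear_combination hu
    have hw' : (X.choose (p * i) : ℤ) = ((m - 1).choose i : ℤ) + p * w := by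
      linear_combination hw
    rw [hu', hw', hX'] at e
    have e' : (p : ℤ) * t * G i - G i = (p : ℤ) * (((i : ℤ) + 1) * (((m - 1).choose (i + 1) : ℤ) + p * u) +
        (i : ℤ) * (((m - 1).choose i : ℤ) + p * w)) := by linear_combination e
    have e2 : (p : ℤ) * t * G i = (p : ℤ) ^ 2 * (t * g) := by rw [hg]; ring
    linear_combination e2 - e' - (p : ℤ) * hch
  -- termwise congruence of the powers
  have hterm : ∀ i < m, (p : ℤ) ^ 2 ∣ (∑ j ∈ range p, (X.choose (p * i + j) : ℤ) ^ (p * m + 1)) -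
      ((m - 1).choose i : ℤ) ^ (p * m) * G i := by
    intro i hi
    rw [hG, mul_sum, ← sum_sub_distrib]
    refine dvd_sum fun j hj => ?_
    rw [mem_range] at hj
    have h3 := pow_lift p m (hbin i (by omega) j hj)
    have h4 : ((-1 : ℤ) ^ j * ((m - 1).choose i : ℤ)) ^ (p * m) =
        (-1) ^ j * ((m - 1).choose i : ℤ) ^ (p * m) := by
      rw [mul_pow]
      congr 1
      have hpm : Odd (p * m) := hodd.mul hod
      rw [← pow_mul, mul_comm, pow_mul, hpm.neg_one_pow]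
    rw [h4] at h3
    have h5 := h3.mul_left (X.choose (p * i + j) : ℤ)
    refine (dvd_of_eq ?_).trans (h5.trans (dvd_of_eq ?_)) |>.trans dvd_rfl
    · rfl
    · ring
  rw [sum_blocks] at hS
  have hdiff : (p : ℤ) ^ 2 ∣ ∑ i ∈ range m, ((∑ j ∈ range p, (X.choose (p * i + j) : ℤ) ^ (p * m + 1)) +
      (p : ℤ) * ((m : ℤ) - 1) * (((m - 1).choose i : ℤ) ^ (m + 1))) := by
    refine dvd_sum fun i hi => ?_
    rw [mem_range] at hi
    have a1 := hterm i hi
    have a2 := (hGm i hi).mul_left (((m - 1).choose i : ℤ) ^ (p * m))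
    have a3 : (p : ℤ) ∣ ((m - 1).choose i : ℤ) ^ (p * m + 1) - ((m - 1).choose i : ℤ) ^ (m + 1) := by
      rw [← ZMod.intCast_zmod_eq_zero_iff_dvd]
      push_cast
      rw [pow_succ, pow_mul, ZMod.pow_card, ← pow_succ, sub_self]
    have a4 : (p : ℤ) ^ 2 ∣ (p : ℤ) * ((m : ℤ) - 1) * (((m - 1).choose i : ℤ) ^ (p * m + 1) -
        ((m - 1).choose i : ℤ) ^ (m + 1)) := by
      obtain ⟨z, hz⟩ := a3
      rw [hz]
      exact ⟨((m : ℤ) - 1) * z, by ring⟩
    have a5 := dvd_sub (dvd_add a1 a2) a4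
    refine a5.trans (dvd_of_eq ?_)
    rw [pow_succ]
    ring
  rw [sum_add_distrib, ← mul_sum] at hdiff
  have h8 := (dvd_add_right hS).1 hdiff
  have hT : (T m : ℤ) = ∑ i ∈ range m, ((m - 1).choose i : ℤ) ^ (m + 1) := by
    rw [T]; push_cast; rfl
  rw [← hT, pow_two, mul_assoc] at h8
  exact (mul_dvd_mul_iff_left (by exact_mod_cast hp.out.ne_zero)).1 h8

end Pool.Agent.H69Sun
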