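import Pool.Agent.H69Sun.Bridge

/-!
# H69Sun/Count: few integers with a prime factor above `n^(2/3)` satisfy the congruence
-/

namespace Pool.Agent.H69Sun

open Finset

theorem T_pos {m : ℕ} (hm : 1 ≤ m) : 0 < T m := by
  have h : (m - 1).choose 0 ^ (m + 1) ≤ T m :=
    single_le_sum (f := fun i => (m - 1).choose i ^ (m + 1)) (fun i _ => Nat.zero_le _)
      (mem_range.2 (by omega))
  simp only [Nat.choose_zero_right, one_pow] at h
  omega

theorem T_le {m : ℕ} (hm : 1 ≤ m) : T m ≤ 2 ^ (m ^ 2) := by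
  have hsum : ∑ i ∈ range m, (m - 1).choose i = 2 ^ (m - 1) := by
    have := Nat.sum_range_choose (m - 1)
    rwa [show m - 1 + 1 = m by omega] at this
  have hle : ∀ i ∈ range m, (m - 1).choose i ^ (m + 1) ≤ (2 ^ (m - 1)) ^ m * (m - 1).choose i := by
    intro i hi
    rw [pow_succ]
    apply Nat.mul_le_mul_right
    apply Nat.pow_le_pow_left
    rw [← hsum]
    exact single_le_sum (f := fun i => (m - 1).choose i) (fun i _ => Nat.zero_le _) hi
  calc T m ≤ ∑ i ∈ range m, (2 ^ (m - 1)) ^ m * (m - 1).choose i := sum_le_sum hle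
    _ = 2 ^ ((m - 1) * m + (m - 1)) := by rw [← mul_sum, hsum, ← pow_mul, ← pow_add]
    _ ≤ 2 ^ (m ^ 2) := by
      apply Nat.pow_le_pow_right (by norm_num)
      obtain ⟨s, rfl⟩ : ∃ s, m = s + 1 := ⟨m - 1, by omega⟩
      simp only [Nat.add_sub_cancel]
      nlinarith

/-- the primes `p > m^2` dividing `T(m)` -/
def PF (m : ℕ) : Finset ℕ := (T m).primeFactors.filter (fun p => m ^ 2 < p)

theorem card_PF {m : ℕ} (hm : 2 ≤ m) : ((PF m).card : ℝ) * (2 * Real.log m) ≤ (m : ℝ) ^ 2 * Real.log 2 := by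
  have hT := T_pos (m := m) (by omega)
  have h1 : ∏ p ∈ PF m, p ∣ T m := by
    refine dvd_trans ?_ (Nat.prod_primeFactors_dvd (T m))
    exact prod_dvd_prod_of_subset _ _ _ (filter_subset _ _)
  have h2 : (m ^ 2) ^ (PF m).card ≤ ∏ p ∈ PF m, p := by
    rw [← prod_const]
    apply prod_le_prod' 
    intro p hp
    exact (mem_filter.1 hp).2.le
  have h3 : (m ^ 2) ^ (PF m).card ≤ 2 ^ (m ^ 2) :=
    h2.trans ((Nat.le_of_dvd hT h1).trans (T_le (by omega)))
  have h4 : (((m : ℝ) ^ 2) ^ (PF m).card) ≤ (2 : ℝ) ^ (m ^ 2) := by exact_mod_cast h3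
  have hm0 : (0 : ℝ) < m := by exact_mod_cast (show 0 < m by omega)
  have h5 := Real.log_le_log (by positivity) h4
  rw [Real.log_pow, Real.log_pow, Real.log_pow] at h5
  push_cast at h5
  linarith

theorem sum_sq_le (K : ℕ) : ∑ m ∈ range (K + 1), m ^ 2 ≤ K ^ 3 := by
  induction K with
  | zero => simp
  | succ K ih =>
    rw [sum_range_succ]
    have h1 : (K + 1) ^ 3 = K ^ 3 + 3 * K ^ 2 + 3 * K + 1 := by ring
    have h2 : (K + 1) ^ 2 = K ^ 2 + 2 * K + 1 := by ring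
    omega

theorem log_le_sqrt {x : ℝ} (hx : 0 < x) : Real.log x ≤ √x := by
  have ht : 0 < √x := Real.sqrt_pos.2 hx
  have h1 : Real.log x = 2 * Real.log (√x) := by
    rw [Real.log_sqrt hx.le]; ring
  have h2 : Real.log (√x) = Real.log (√x / 2) + Real.log 2 := by
    rw [← Real.log_mul (by positivity) (by norm_num)]
    congr 1
    ring
  have h3 : Real.log (√x / 2) ≤ √x / 2 - 1 := Real.log_le_sub_one_of_pos (by positivity)
  have h4 : Real.log 2 ≤ 1 := by have := Real.log_two_lt_d9; linarith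
  rw [h1, h2]
  linarith

theorem sum_cube_le (y : ℕ) : ∑ m ∈ (range (y + 1)).filter (fun m => m ^ 3 ≤ y), m ^ 2 ≤ y := by
  set K := Nat.findGreatest (fun m => m ^ 3 ≤ y) y with hK
  have hK3 : K ^ 3 ≤ y := by
    have := Nat.findGreatest_spec (P := fun m => m ^ 3 ≤ y) (m := 0) (n := y) (Nat.zero_le _) (by simp)
    exact this
  refine le_trans ?_ ((sum_sq_le K).trans hK3)
  apply sum_le_sum_of_subset
  intro m hm
  rw [mem_filter, mem_range] at hm
  rw [mem_range]
  have := Nat.le_findGreatest (P := fun m => m ^ 3 ≤ y) (by omega : m ≤ y) hm.2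
  omega

/-- the integers `n ≤ x` which are not prime, have a prime factor `p` with `p^3 > n^2`, and satisfy `n^2 ∣ S(n)` -/
noncomputable def bad (x : ℕ) : Finset ℕ := by
  classical
  exact (Icc 1 x).filter (fun n => ¬ n.Prime ∧ (∃ p, p.Prime ∧ p ∣ n ∧ n ^ 2 < p ^ 3) ∧ Cong 2 n)

theorem card_bad_le_sum (x : ℕ) : (bad x).card ≤
    ∑ m ∈ (range (x + 1)).filter (fun m => 2 ≤ m ∧ m ^ 3 ≤ x), (PF m).card := by
  classical
  have hsub : bad x ⊆ ((range (x + 1)).filter (fun m => 2 ≤ m ∧ m ^ 3 ≤ x)).biUnion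
      (fun m => (PF m).image (fun p => p * m)) := by
    intro n hn
    unfold bad at hn
    rw [mem_filter, mem_Icc] at hn
    obtain ⟨⟨hn1, hnx⟩, hnp, ⟨p, hp, ⟨m, rfl⟩, hlt⟩, hC⟩ := hn
    have hp0 := hp.pos
    have hm0 : m ≠ 0 := by rintro rfl; omega
    have hm1 : m ≠ 1 := by rintro rfl; rw [mul_one] at hnp; exact hnp hp
    have hm2 : 2 ≤ m := by omega
    have hmp : m ^ 2 < p := by
      have h1 : (p * m) ^ 2 = p ^ 2 * m ^ 2 := by ring
      have h2 : p ^ 3 = p ^ 2 * p := by ring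
      rw [h1, h2] at hlt
      exact Nat.lt_of_mul_lt_mul_left hlt
    have hmp' : m < p := by nlinarith
    have hm3 : m ^ 3 ≤ x := by
      have : m ^ 3 = m ^ 2 * m := by ring
      have h2 : m ^ 2 * m ≤ p * m := Nat.mul_le_mul_right _ hmp.le
      omega
    have hmx : m ≤ x := by
      have : m ≤ m ^ 3 := Nat.le_self_pow (by norm_num) m
      omega
    rw [mem_biUnion]
    refine ⟨m, mem_filter.2 ⟨mem_range.2 (by omega), hm2, hm3⟩, mem_image.2 ⟨p, ?_, rfl⟩⟩
    rw [PF, mem_filter, Nat.mem_primeFactors]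
    exact ⟨⟨hp, dvd_T hp hm2 hmp' hC, (T_pos (by omega)).ne'⟩, hmp⟩
  refine (card_le_card hsub).trans (card_biUnion_le.trans (sum_le_sum fun m _ => card_image_le))

theorem card_bad (x : ℕ) (hx : 2 ≤ x) : ((bad x).card : ℝ) ≤ 4 * x / Real.log x := by
  have hxr : (2 : ℝ) ≤ x := by exact_mod_cast hx
  have hx0 : (0 : ℝ) < x := by linarith
  have hlog : 0 < Real.log x := Real.log_pos (by linarith)
  have hl2 : 0 < Real.log 2 := Real.log_pos (by norm_num)
  have hl2' : Real.log 2 ≤ 1 := by have := Real.log_two_lt_d9; linarith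
  set J := (range (x + 1)).filter (fun m => 2 ≤ m ∧ m ^ 3 ≤ x) with hJ
  have h1 : ((bad x).card : ℝ) ≤ ∑ m ∈ J, ((PF m).card : ℝ) := by exact_mod_cast card_bad_le_sum x
  -- split
  have h2 : ∀ m ∈ J, ((PF m).card : ℝ) ≤ (if m ^ 6 ≤ x then (m : ℝ) ^ 2 else 0) +
      3 / Real.log x * (m : ℝ) ^ 2 := by
    intro m hm
    rw [hJ, mem_filter] at hm
    have hm2 : (2 : ℝ) ≤ m := by exact_mod_cast hm.2.1
    have hc := card_PF hm.2.1
    have hlm : Real.log 2 ≤ Real.log m := Real.log_le_log (by norm_num) hm2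
    have hcn : (0 : ℝ) ≤ ((PF m).card : ℝ) := Nat.cast_nonneg _
    by_cases h6 : m ^ 6 ≤ x
    · rw [if_pos h6]
      have h3 : ((PF m).card : ℝ) * (2 * Real.log 2) ≤ (m : ℝ) ^ 2 * Real.log 2 := by
        refine le_trans ?_ hc
        exact mul_le_mul_of_nonneg_left (by linarith) hcn
      have h4 : ((PF m).card : ℝ) ≤ (m : ℝ) ^ 2 := by
        have h5 : (((PF m).card : ℝ) * 2) * Real.log 2 ≤ (m : ℝ) ^ 2 * Real.log 2 := by linarith
        have h6 := le_of_mul_le_mul_right h5 hl2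
        linarith
      have h7 : 0 ≤ 3 / Real.log x * (m : ℝ) ^ 2 := by positivity
      linarith
    · rw [if_neg h6, zero_add]
      have h7 : (x : ℝ) ≤ (m : ℝ) ^ 6 := by exact_mod_cast (not_le.1 h6).le
      have h8 : Real.log x ≤ 6 * Real.log m := by
        have := Real.log_le_log hx0 h7
        rwa [Real.log_pow] at this
      have h9 : ((PF m).card : ℝ) * (Real.log x / 3) ≤ (m : ℝ) ^ 2 := by
        have h10 : ((PF m).card : ℝ) * (Real.log x / 3) ≤ ((PF m).card : ℝ) * (2 * Real.log m) :=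
          mul_le_mul_of_nonneg_left (by linarith) hcn
        have h11 : (m : ℝ) ^ 2 * Real.log 2 ≤ (m : ℝ) ^ 2 := by nlinarith [sq_nonneg (m : ℝ)]
        linarith
      rw [div_mul_eq_mul_div, le_div_iff₀ hlog]
      linarith
  have h3 : ∑ m ∈ J, (if m ^ 6 ≤ x then (m : ℝ) ^ 2 else 0) ≤ (Nat.sqrt x : ℝ) := by
    rw [← sum_filter]
    have h4 : ∑ m ∈ J.filter (fun m => m ^ 6 ≤ x), m ^ 2 ≤
        ∑ m ∈ (range (Nat.sqrt x + 1)).filter (fun m => m ^ 3 ≤ Nat.sqrt x), m ^ 2 := by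
      apply sum_le_sum_of_subset
      intro m hm
      rw [mem_filter] at hm
      have h5 : m ^ 3 ≤ Nat.sqrt x := by
        rw [Nat.le_sqrt]
        have : m ^ 3 * m ^ 3 = m ^ 6 := by ring
        omega
      have h6 : m ≤ m ^ 3 := Nat.le_self_pow (by norm_num) m
      rw [mem_filter, mem_range]
      exact ⟨by omega, h5⟩
    have h5 := h4.trans (sum_cube_le (Nat.sqrt x))
    exact_mod_cast h5
  have h4 : ∑ m ∈ J, 3 / Real.log x * (m : ℝ) ^ 2 ≤ 3 / Real.log x * x := by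
    rw [← mul_sum]
    apply mul_le_mul_of_nonneg_left _ (by positivity)
    have h5 : ∑ m ∈ J, m ^ 2 ≤ ∑ m ∈ (range (x + 1)).filter (fun m => m ^ 3 ≤ x), m ^ 2 := by
      apply sum_le_sum_of_subset
      intro m hm
      rw [hJ, mem_filter] at hm
      exact mem_filter.2 ⟨hm.1, hm.2.2⟩
    have h6 := h5.trans (sum_cube_le x)
    exact_mod_cast h6
  have h5 : ((bad x).card : ℝ) ≤ (Nat.sqrt x : ℝ) + 3 / Real.log x * x := by
    refine h1.trans ((sum_le_sum h2).trans ?_)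
    rw [sum_add_distrib]
    linarith
  have h6 : (Nat.sqrt x : ℝ) * Real.log x ≤ x := by
    have h61 : (Nat.sqrt x : ℝ) ≤ √(x : ℝ) := Real.nat_sqrt_le_real_sqrt
    calc (Nat.sqrt x : ℝ) * Real.log x ≤ √(x : ℝ) * √(x : ℝ) :=
          mul_le_mul h61 (log_le_sqrt hx0) hlog.le (Real.sqrt_nonneg _)
      _ = x := Real.mul_self_sqrt hx0.le
  have h7 : (Nat.sqrt x : ℝ) ≤ x / Real.log x := by
    rw [le_div_iff₀ hlog]; exact h6
  have h8 : 4 * (x : ℝ) / Real.log x = x / Real.log x + 3 / Real.log x * x := by ring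
  rw [h8]
  linarith

end Pool.Agent.H69Sun
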