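import Pool.Agent.FZ.DMert

/-!
# H69Sun/Share: the composite integers `n ≤ x` with a prime factor `p`, `p^3 > n^2`, number at least
`log(3/2) x - C x / log x`.
-/

namespace Pool.Agent.H69Sun

open Finset

/-- the integers `n ≤ x` which are not prime and have a prime factor `p` with `p^3 > n^2` -/
noncomputable def cls (x : ℕ) : Finset ℕ := by
  classical
  exact (Icc 1 x).filter (fun n => ¬ n.Prime ∧ (∃ p, p.Prime ∧ p ∣ n ∧ n ^ 2 < p ^ 3))

theorem mertens_share : ∃ C : ℝ, 0 < C ∧ ∀ x : ℝ, 2 ≤ x →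
    Real.log (3 / 2) - C / Real.log x ≤
      ∑ p ∈ FZ.prs (2 / 3 * Real.log x) (Real.log x), 1 / (p : ℝ) := by
  obtain ⟨C, hC, hM⟩ := FZ.mertens_lip
  refine ⟨C * 6, by positivity, fun x hx => ?_⟩
  set l := Real.log x with hl
  have hl2 : Real.log 2 ≤ l := Real.log_le_log (by norm_num) hx
  have hl2' : (3 : ℝ) / 5 ≤ Real.log 2 := by have := Real.log_two_gt_d9; linarith
  have hl0 : 0 < l := by linarith
  set a := 2 / 3 * l with ha
  have ha0 : 0 < a := by positivity
  have hab : a ≤ l := by rw [ha]; linarith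
  have h := hM a l (1 / a) (1 / a ^ 2) ha0.le hab (by positivity) (fun t => 1 / t) ?_ ?_
  · have hint : ∫ t in a..l, 1 / t = Real.log (3 / 2) := by
      rw [integral_one_div_of_pos ha0 hl0]
      congr 1
      rw [ha]
      field_simp
    rw [hint] at h
    have hsum : ∑ p ∈ FZ.prs a l, Real.log p / (p : ℝ) * (fun t : ℝ => 1 / t) (Real.log p) =
        ∑ p ∈ FZ.prs a l, 1 / (p : ℝ) := by
      refine sum_congr rfl fun p hp => ?_
      rw [FZ.mem_prs] at hp
      have : Real.log p ≠ 0 := (ha0.trans hp.2.1).ne'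
      simp only
      field_simp
    rw [hsum, abs_le] at h
    have herr : C * (1 / a + 1 / a ^ 2 * (l - a + 1)) ≤ C * 6 / l := by
      have h1 : 1 / a + 1 / a ^ 2 * (l - a + 1) = (9 / 4 * l + 9 / 4) / l ^ 2 := by
        rw [ha]
        field_simp
        ring
      rw [h1, mul_div_assoc]
      apply mul_le_mul_of_nonneg_left _ hC.le
      rw [div_le_div_iff₀ (by positivity) hl0]
      nlinarith
    linarith [h.1]
  · intro t h1 h2
    have ht : 0 < t := by linarith
    rw [abs_of_pos (by positivity)]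
    exact one_div_le_one_div_of_le ha0 h1
  · intro s t h1 h2 h3 h4
    have hs : 0 < s := by linarith
    have ht : 0 < t := by linarith
    have e : 1 / s - 1 / t = -(s - t) / (s * t) := by field_simp; ring
    rw [e, abs_div, abs_neg, abs_of_pos (mul_pos hs ht), div_mul_eq_mul_div, one_mul]
    apply div_le_div_of_nonneg_left (abs_nonneg _) (by positivity)
    rw [pow_two]
    exact mul_le_mul h1 h3 ha0.le hs.le

theorem log_le_sqrt' {x : ℝ} (hx : 0 < x) : Real.log x ≤ √x := by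
  have h1 : Real.log x = 2 * Real.log (√x) := by
    rw [Real.log_sqrt hx.le]; ring
  have ht : 0 < √x := Real.sqrt_pos.2 hx
  have h2 : Real.log (√x) = Real.log (√x / 2) + Real.log 2 := by
    rw [← Real.log_mul (by positivity) (by norm_num)]
    congr 1
    ring
  have h3 : Real.log (√x / 2) ≤ √x / 2 - 1 := Real.log_le_sub_one_of_pos (by positivity)
  have h4 : Real.log 2 ≤ 1 := by have := Real.log_two_lt_d9; linarith
  rw [h1, h2]
  linarith

theorem card_prs (x : ℕ) (hx : 2 ≤ x) (a : ℝ) :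
    ((FZ.prs a (Real.log x)).card : ℝ) ≤ 4 * x / Real.log x := by
  have hxr : (2 : ℝ) ≤ x := by exact_mod_cast hx
  have hx0 : (0 : ℝ) < x := by linarith
  have hlog : 0 < Real.log x := Real.log_pos (by linarith)
  have h1 : (FZ.prs a (Real.log x)).card ≤ Nat.primeCounting x := by
    rw [← Nat.primesLE_card_eq_primeCounting]
    apply card_le_card
    intro p hp
    rw [FZ.mem_prs] at hp
    rw [Nat.mem_primesLE]
    refine ⟨?_, hp.1⟩
    have h2 := (Real.log_le_log_iff (by exact_mod_cast hp.1.pos) hx0).1 hp.2.2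
    exact_mod_cast h2
  have h2 : ((Nat.primeCounting x : ℕ) : ℝ) ≤ Real.log 4 * x / Real.log (√x) + √x := by
    have := Chebyshev.pi_le_log4_mul_div (x := (x : ℝ)) (by linarith)
    rwa [Nat.floor_natCast] at this
  have h3 : Real.log (√x) = Real.log x / 2 := Real.log_sqrt hx0.le
  have h4 : √(x : ℝ) ≤ x / Real.log x := by
    rw [le_div_iff₀ hlog]
    calc √(x : ℝ) * Real.log x ≤ √(x : ℝ) * √(x : ℝ) :=
          mul_le_mul_of_nonneg_left (log_le_sqrt' hx0) (Real.sqrt_nonneg _)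
      _ = x := Real.mul_self_sqrt hx0.le
  have h5 : Real.log 4 ≤ 3 / 2 := by
    have h6 : Real.log 4 = 2 * Real.log 2 := by
      rw [show (4 : ℝ) = 2 ^ 2 by norm_num, Real.log_pow]
      norm_num
    have := Real.log_two_lt_d9
    linarith
  have h6 : Real.log 4 * x / Real.log (√x) ≤ 3 * (x / Real.log x) := by
    rw [h3, div_div_eq_mul_div, ← mul_div_assoc]
    apply div_le_div_of_nonneg_right _ hlog.le
    nlinarith
  have h7 : ((FZ.prs a (Real.log x)).card : ℝ) ≤ Nat.primeCounting x := by exact_mod_cast h1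
  rw [mul_div_assoc]
  linarith

/-- the multiples `p m ≤ x`, `m ≥ 2` -/
def mults (x p : ℕ) : Finset ℕ := (Icc 2 (x / p)).image (fun m => p * m)

theorem card_mults (x p : ℕ) (hp : 0 < p) : (mults x p).card = x / p - 1 := by
  rw [mults, card_image_of_injective _ (fun a b h => Nat.eq_of_mul_eq_mul_left hp h), Nat.card_Icc]
  omega

theorem sum_mults_le (x : ℕ) (hx : 2 ≤ x) :
    ∑ p ∈ FZ.prs (2 / 3 * Real.log x) (Real.log x), (x / p - 1) ≤ (cls x).card := by
  classical
  have hx0 : (0 : ℝ) < x := by exact_mod_cast (show 0 < x by omega)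
  have hbig : ∀ p ∈ FZ.prs (2 / 3 * Real.log x) (Real.log x), p.Prime ∧ x ^ 2 < p ^ 3 ∧ p ≤ x := by
    intro p hp
    rw [FZ.mem_prs] at hp
    obtain ⟨h1, h2, h3⟩ := hp
    have hp0 : (0 : ℝ) < p := by exact_mod_cast h1.pos
    refine ⟨h1, ?_, ?_⟩
    · have h4 : Real.log ((x : ℝ) ^ 2) < Real.log ((p : ℝ) ^ 3) := by
        rw [Real.log_pow, Real.log_pow]
        push_cast
        linarith
      have h5 := (Real.log_lt_log_iff (by positivity) (by positivity)).1 h4
      exact_mod_cast h5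
    · have h5 := (Real.log_le_log_iff hp0 hx0).1 h3
      exact_mod_cast h5
  have hdisj : (↑(FZ.prs (2 / 3 * Real.log x) (Real.log x)) : Set ℕ).PairwiseDisjoint (mults x) := by
    intro p hp q hq hpq
    rw [Function.onFun, disjoint_left]
    intro n hn1 hn2
    obtain ⟨hpp, hp3, hpx⟩ := hbig p hp
    obtain ⟨hqp, hq3, hqx⟩ := hbig q hq
    rw [mults, mem_image] at hn1 hn2
    obtain ⟨m, hm, hmn⟩ := hn1
    obtain ⟨m', hm', hmn'⟩ := hn2
    rw [mem_Icc] at hm
    have hnx : n ≤ x := by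
      rw [← hmn]
      exact (Nat.mul_le_mul_left p hm.2).trans (Nat.mul_div_le x p)
    have hd : p * q ∣ n := by
      apply Nat.Coprime.mul_dvd_of_dvd_of_dvd ((Nat.coprime_primes hpp hqp).2 hpq)
      · exact ⟨m, hmn.symm⟩
      · exact ⟨m', hmn'.symm⟩
    have hn0 : 0 < n := by
      rw [← hmn]
      exact Nat.mul_pos hpp.pos (by omega)
    have hle : p * q ≤ x := (Nat.le_of_dvd hn0 hd).trans hnx
    have h1 : (x ^ 2) * (x ^ 2) < p ^ 3 * q ^ 3 := by
      have hxp : 0 < x := by omega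
      have hq0 : 0 < x ^ 2 := by positivity
      calc x ^ 2 * x ^ 2 < p ^ 3 * x ^ 2 := Nat.mul_lt_mul_of_pos_right hp3 hq0
        _ ≤ p ^ 3 * q ^ 3 := Nat.mul_le_mul_left _ hq3.le
    have h2 : p ^ 3 * q ^ 3 = (p * q) ^ 3 := by ring
    have h3 : (p * q) ^ 3 ≤ x ^ 3 := Nat.pow_le_pow_left hle 3
    have h4 : x ^ 3 ≤ x ^ 4 := Nat.pow_le_pow_right (by omega) (by norm_num)
    have h5 : (x ^ 2) * (x ^ 2) = x ^ 4 := by ring
    omega
  have hsub : (FZ.prs (2 / 3 * Real.log x) (Real.log x)).biUnion (mults x) ⊆ cls x := by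
    intro n hn
    rw [mem_biUnion] at hn
    obtain ⟨p, hp, hn⟩ := hn
    obtain ⟨hpp, hp3, hpx⟩ := hbig p hp
    rw [mults, mem_image] at hn
    obtain ⟨m, hm, rfl⟩ := hn
    rw [mem_Icc] at hm
    have hnx : p * m ≤ x := (Nat.mul_le_mul_left p hm.2).trans (Nat.mul_div_le x p)
    unfold cls
    rw [mem_filter, mem_Icc]
    refine ⟨⟨Nat.mul_pos hpp.pos (by omega), hnx⟩, ?_, p, hpp, dvd_mul_right _ _, ?_⟩
    · exact Nat.not_prime_mul hpp.one_lt.ne' (by omega)
    · exact lt_of_le_of_lt (Nat.pow_le_pow_left hnx 2) hp3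
  have h1 := card_le_card hsub
  rw [card_biUnion hdisj] at h1
  refine le_trans (le_of_eq ?_) h1
  refine sum_congr rfl fun p hp => ?_
  rw [card_mults x p (hbig p hp).1.pos]

theorem card_cls : ∃ C : ℝ, 0 < C ∧ ∀ x : ℕ, 2 ≤ x →
    Real.log (3 / 2) * x - C * x / Real.log x ≤ ((cls x).card : ℝ) := by
  obtain ⟨C, hC, hM⟩ := mertens_share
  refine ⟨C + 8, by positivity, fun x hx => ?_⟩
  have hxr : (2 : ℝ) ≤ x := by exact_mod_cast hx
  have hx0 : (0 : ℝ) < x := by linarith
  have hlog : 0 < Real.log x := Real.log_pos (by linarith)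
  set P := FZ.prs (2 / 3 * Real.log x) (Real.log x) with hP
  have h1 : ((∑ p ∈ P, (x / p - 1) : ℕ) : ℝ) ≤ ((cls x).card : ℝ) := by exact_mod_cast sum_mults_le x hx
  have h2 : ∑ p ∈ P, ((x : ℝ) * (1 / (p : ℝ)) - 2) ≤ ((∑ p ∈ P, (x / p - 1) : ℕ) : ℝ) := by
    push_cast
    refine sum_le_sum fun p hp => ?_
    rw [hP, FZ.mem_prs] at hp
    have hp0 : (0 : ℝ) < p := by exact_mod_cast hp.1.pos
    have h3 : (x : ℝ) / p < ((x / p : ℕ) : ℝ) + 1 := by
      rw [div_lt_iff₀ hp0]
      have h31 := Nat.lt_mul_div_succ x hp.1.pos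
      have h32 : (x : ℝ) < (p : ℝ) * (((x / p : ℕ) : ℝ) + 1) := by exact_mod_cast h31
      linarith
    have h4 : ((x / p : ℕ) : ℝ) - 1 ≤ ((x / p - 1 : ℕ) : ℝ) := by
      rw [sub_le_iff_le_add]
      exact_mod_cast (show x / p ≤ x / p - 1 + 1 by omega)
    have h5 : (x : ℝ) * (1 / p) = x / p := by ring
    rw [h5]
    linarith
  rw [sum_sub_distrib, ← mul_sum, sum_const, nsmul_eq_mul] at h2
  have h3 := hM x hxr
  have h4 := card_prs x hx (2 / 3 * Real.log x)
  rw [← hP] at h3 h4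
  have h5 : (x : ℝ) * (Real.log (3 / 2) - C / Real.log x) ≤ x * ∑ p ∈ P, 1 / (p : ℝ) :=
    mul_le_mul_of_nonneg_left h3 hx0.le
  have h6 : (C + 8) * x / Real.log x = x * (C / Real.log x) + 2 * (4 * x / Real.log x) := by ring
  rw [h6]
  nlinarith

end Pool.Agent.H69Sun
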