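import Pool.Agent.H69Sun.Count
import Pool.Agent.H69Sun.Share

/-!
# H69Sun/Final: many composite `n` with a large prime factor violate the congruence
-/

namespace Pool.Agent.H69Sun

open Finset

theorem Cong.mono {r n : ℕ} (hr : 2 ≤ r) (h : Cong r n) : Cong 2 n :=
  ⟨h.1, (pow_dvd_pow _ hr).trans h.2⟩

theorem many_fail : ∃ C : ℝ, ∀ r : ℕ, 2 ≤ r → ∀ x : ℕ, 2 ≤ x →
    Real.log (3 / 2) * x - C * x / Real.log x ≤
      ({n : ℕ | 1 < n ∧ n ≤ x ∧ ¬ n.Prime ∧ (∃ p : ℕ, p.Prime ∧ p ∣ n ∧ n ^ 2 < p ^ 3) ∧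
        ¬ Cong r n}.ncard : ℝ) := by
  classical
  obtain ⟨C, hC, h⟩ := card_cls
  refine ⟨C + 4, fun r hr x hx => ?_⟩
  set A : Set ℕ := {n : ℕ | 1 < n ∧ n ≤ x ∧ ¬ n.Prime ∧ (∃ p : ℕ, p.Prime ∧ p ∣ n ∧ n ^ 2 < p ^ 3) ∧
        ¬ Cong r n} with hA
  have hfin : A.Finite := (Set.finite_Icc 1 x).subset fun n hn => ⟨hn.1.le, hn.2.1⟩
  have hsub : cls x ⊆ bad x ∪ hfin.toFinset := by
    intro n hn
    unfold cls at hn
    rw [mem_filter, mem_Icc] at hn
    obtain ⟨⟨h1, h2⟩, h3, p, hp, hpn, hlt⟩ := hn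
    rw [mem_union, Set.Finite.mem_toFinset]
    by_cases hc : Cong 2 n
    · left
      unfold bad
      rw [mem_filter, mem_Icc]
      exact ⟨⟨h1, h2⟩, h3, ⟨p, hp, hpn, hlt⟩, hc⟩
    · right
      refine ⟨?_, h2, h3, ⟨p, hp, hpn, hlt⟩, fun h => hc (h.mono hr)⟩
      rcases Nat.lt_or_ge 1 n with h | h
      · exact h
      · have h4 : n = 1 := by omega
        rw [h4, Nat.dvd_one] at hpn
        exact absurd hpn hp.one_lt.ne'
  have h1 : (cls x).card ≤ (bad x).card + A.ncard := by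
    rw [Set.ncard_eq_toFinset_card A hfin]
    exact (card_le_card hsub).trans (card_union_le _ _)
  have h2 : ((cls x).card : ℝ) ≤ ((bad x).card : ℝ) + (A.ncard : ℝ) := by exact_mod_cast h1
  have h3 := h x hx
  have h4 := card_bad x hx
  have h5 : (C + 4) * x / Real.log x = C * x / Real.log x + 4 * x / Real.log x := by ring
  rw [h5]
  linarith

end Pool.Agent.H69Sun
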